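import Pool.Agent.TH600.LC.Flat

/-!
MP_8d161d_ag, Q1: Zariski-dense entire curves with homogeneous coordinates in the ring generated by
differentially algebraic functions and functions with Hadamard gaps.
-/

set_option autoImplicit false

namespace Pool.Agent.Results.MP_8d161d_ag.GapCoordinates

open MvPolynomial Set FF
open Pool.Agent.W602.GT Pool.Agent.TH143 Pool.Agent.TH143.GT Pool.Agent.W603.BP
  Pool.Agent.W603.BPR Pool.Agent.W603.GR
open Pool.Agent.TH600.LC (InRing GapOver CoefRing DAlg)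

/-- Let `X` be the projective variety with the ideal `p`, the function field `K` and the generic
point `y`, let `Y` be a set of entire functions which satisfy algebraic differential equations, let
`z₀` be a complex number, and let `f` be a Zariski-dense entire curve in `X` which has homogeneous
coordinates in the ring `GapOver Y z₀` generated by `Y` and all entire functions with Hadamard gaps
at `z₀`.

(1) Either `X` is covered by rational curves, and all pluricanonical forms vanish, or `f` has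
homogeneous coordinates in the ring `CoefRing Y` generated by `Y` and the identity.

(2) If the functions in `Y` satisfy linear differential equations with polynomial coefficients, then
`X` is covered by rational curves, and all pluricanonical forms vanish.

So let `X` have a nonzero pluricanonical form; this is the case if `X` is of general type. Then

(3) Zariski-dense entire curves in `X` with homogeneous coordinates in `GapOver Y z₀` have
homogeneous coordinates in `CoefRing Y`.

(4) There is no Zariski-dense entire curve in `X` with homogeneous coordinates in the ring generated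
by the entire functions which satisfy linear differential equations with polynomial coefficients and
the entire functions with Hadamard gaps at `z₀`. -/
theorem result {n : ℕ} (p : Ideal (MvPolynomial (Fin (n + 1)) ℂ)) (K : Type) [Field K]
    [Algebra ℂ K] (w : ℕ) (y : Fin (n + 1) → K) (hy : FunField p 1 K w y) (z₀ : ℂ) :
    (∀ Y : Set (ℂ → ℂ), (∀ u ∈ Y, Differentiable ℂ u ∧ DAlg u) →
      ∀ f, EntireCurve p 1 f → ZDense p f univ → InRing (GapOver Y z₀) f →
        (Covered K ∧ ∀ N, 0 < N → ∀ ω : (Fin w → Derivation ℂ K K) → K,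
          Pluricanonical w N ω → ω = 0) ∨ InRing (CoefRing Y) f) ∧
    (∀ Y : Set (ℂ → ℂ), (∀ u ∈ Y, Differentiable ℂ u ∧ PolODE u) →
      ∀ f, EntireCurve p 1 f → ZDense p f univ → InRing (GapOver Y z₀) f →
        Covered K ∧ ∀ N, 0 < N → ∀ ω : (Fin w → Derivation ℂ K K) → K,
          Pluricanonical w N ω → ω = 0) ∧
    ((∃ N, 0 < N ∧ ∃ ω : (Fin w → Derivation ℂ K K) → K, Pluricanonical w N ω ∧ ω ≠ 0) →
      (∀ Y : Set (ℂ → ℂ), (∀ u ∈ Y, Differentiable ℂ u ∧ DAlg u) →
        ∀ f, EntireCurve p 1 f → ZDense p f univ → InRing (GapOver Y z₀) f →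
          InRing (CoefRing Y) f) ∧
      ∀ f, EntireCurve p 1 f → InRing (GapOver {u | Differentiable ℂ u ∧ PolODE u} z₀) f →
        ¬ ZDense p f univ) ∧
    (GeneralType ℂ K w →
      ∃ N, 0 < N ∧ ∃ ω : (Fin w → Derivation ℂ K K) → K, Pluricanonical w N ω ∧ ω ≠ 0) := by
  have van : ∀ f, EntireCurve p 1 f → ZDense p f univ → (∃ r : K, ¬ AllFlat 1 y r) →
      ∀ N, 0 < N → ∀ ω : (Fin w → Derivation ℂ K K) → K, Pluricanonical w N ω → ω = 0 := by
    rintro f hf hd ⟨r, hr⟩ N hN ω hω
    obtain ⟨hdf, -, -, -⟩ := ent_data hf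
    have hgp : GenPt f univ K w y := hy.genPt (fun z _ => (hf.2.1 z).2.1) hd
    funext D
    exact sec_zero (hgp.inv hdf) hr hN (hω.logSec _) D
  have h1 : ∀ Y : Set (ℂ → ℂ), (∀ u ∈ Y, Differentiable ℂ u ∧ DAlg u) →
      ∀ f, EntireCurve p 1 f → ZDense p f univ → InRing (GapOver Y z₀) f →
        (Covered K ∧ ∀ N, 0 < N → ∀ ω : (Fin w → Derivation ℂ K K) → K,
          Pluricanonical w N ω → ω = 0) ∨ InRing (CoefRing Y) f := by
    rintro Y hY f hf hd ⟨h, hh, hh0, hfh⟩
    obtain ⟨hdf, hne, -, -⟩ := ent_data hf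
    have hgp : GenPt f univ K w y := hy.genPt (fun z _ => (hf.2.1 z).2.1) hd
    have hhd : ∀ j, Differentiable ℂ (fun z => h z j) := fun j =>
      Pool.Agent.TH600.LC.gapOver_diff (fun u hu => (hY u hu).1) (hh j)
    have hgh := Pool.Agent.TH600.LC.genPt_par hdf hhd ⟨0, hne 0⟩ hh0 hfh hgp
    rcases Pool.Agent.TH600.LC.dichotomy hY hh hh0 hgh with ⟨h2, h3⟩ | ⟨u, hu, hu0, huh⟩
    · exact Or.inl ⟨h2, van f hf hd h3⟩
    · right
      refine ⟨u, hu, hu0, fun z j k => ?_⟩
      exact Pool.Agent.TH600.LC.par_trans hdf hhd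
        (fun j => Pool.Agent.TH600.LC.differentiable_coef (fun u hu => (hY u hu).1) (hu j))
        hh0 hfh huh z j k
  have h2 : ∀ Y : Set (ℂ → ℂ), (∀ u ∈ Y, Differentiable ℂ u ∧ PolODE u) →
      ∀ f, EntireCurve p 1 f → ZDense p f univ → InRing (GapOver Y z₀) f →
        Covered K ∧ ∀ N, 0 < N → ∀ ω : (Fin w → Derivation ℂ K K) → K,
          Pluricanonical w N ω → ω = 0 := by
    rintro Y hY f hf hd ⟨h, hh, hh0, hfh⟩
    obtain ⟨hdf, hne, -, hnc⟩ := ent_data hf
    have hgp : GenPt f univ K w y := hy.genPt (fun z _ => (hf.2.1 z).2.1) hd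
    have hhd : ∀ j, Differentiable ℂ (fun z => h z j) := fun j =>
      Pool.Agent.TH600.LC.gapOver_diff (fun u hu => (hY u hu).1) (hh j)
    obtain ⟨u, hu, hfu⟩ := Pool.Agent.TH600.LC.exists_dfin_tr (Y := Y) hY hh
    have hforms : ∀ G : MvPolynomial (Fin (n + 1)) ℂ, (∃ e, G.IsHomogeneous e) →
        ((∀ z, eval (f z) G = 0) ↔ ∀ z, eval (u z) G = 0) := fun G hG =>
      (Pool.Agent.TH600.LC.forms_iff hdf hhd ⟨0, hne 0⟩ hh0 hfh hG).trans (hfu G hG)
    have hgu := Pool.Agent.TH600.LC.genPt_forms hforms hgp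
    obtain ⟨r, hr⟩ := Pool.Agent.TH600.LC.dfin_not_flat hu hgu
      (Pool.Agent.TH600.LC.nonconst_of_forms hforms hnc)
    exact ⟨Pool.Agent.TH600.LC.covered_of_not_flat hgu hr, van f hf hd ⟨r, hr⟩⟩
  refine ⟨h1, h2, ?_, ?_⟩
  · rintro ⟨N, hN, ω, hω, hω0⟩
    refine ⟨fun Y hY f hf hd hr => ?_, fun f hf hr hd => ?_⟩
    · rcases h1 Y hY f hf hd hr with h3 | h3
      · exact absurd (h3.2 N hN ω hω) hω0
      · exact h3
    · exact hω0 ((h2 _ (fun u hu => hu) f hf hd hr).2 N hN ω hω)
  · rintro ⟨-, N, hN, ω, hpl, hreg, D, hD0, -⟩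
    exact ⟨N, hN, ω 0, ⟨hpl 0, fun P hP => hreg P hP 0⟩, fun h => hD0 (by rw [h]; rfl)⟩

end Pool.Agent.Results.MP_8d161d_ag.GapCoordinates
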