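import Pool.Agent.TH875.PQ.G

set_option autoImplicit false

/-!
# Rational and elliptic curves on very general twists of fibred surfaces of general type

`k` is an algebraically closed field of characteristic zero. Let `g (t, x)` be a monic polynomial of
even degree `2 l ≥ 6` in `x` over `k[t]`, whose discriminant is not zero: the surface
`w ^ 2 = g (t, x)` is an arbitrary family (over the projective line) of hyperelliptic curves of
genus `l - 1` (for which the points at infinity are not branch points, up to a twist). Its
quadratic twists are the surfaces `X : z ^ 2 = ∏ (t - a i) * g (t, x)`. A curve on `X` with function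
field `L` whose image is not contained in the fibres `t = ∞`, `x = ∞` is given by `t`, `x`, `z` in
`L`, where `t` and `x` are not both constant.
-/

namespace Pool.Agent.Results.MP_8d161d_ag.TwistedFibrations

open FF MvPolynomial

section

variable (k : Type) {L : Type} [Field k] [Field L] [Algebra k L]

/-- The degree of the morphism to `ℙ¹` given by `f`: the number of the poles of `f`, counted with
multiplicities. -/
noncomputable def degree (f : L) : ℤ := ∑ᶠ P : Place k L, max (-P.ord f) 0

variable (L) in
open Classical in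
/-- `2 g - 2`, where `g` is the genus of the curve with function field `L`: minus the degree of the
divisor of a nonzero rational vector field `D` (a derivation of `L` over `k`), whose order at the
place `P` is the order of `D s`, where `s` is an element of order `1` at `P`. It does not depend on
the choice of `D` and of the elements `s`. -/
noncomputable def canonicalDegree : ℤ :=
  if h : ∃ D : Derivation k L L, D ≠ 0 then - ∑ᶠ P : Place k L, P.ord (h.choose P.surj.choose)
  else 0

end

/-- The polynomial `g (t, x)` is monic of degree `2 l` with respect to the second variable `x`. -/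
def MonicIn {k : Type} [Field k] (l : ℕ) (g : MvPolynomial (Fin 2) k) : Prop :=
  ∃ g₁ : MvPolynomial (Fin 2) k, g = X 1 ^ (2 * l) + g₁ ∧ ∀ m ∈ g₁.support, m 1 < 2 * l

/-- `Δ (t)` is a nonzero polynomial that is a linear combination of `g (t, x)` and its derivative
with respect to `x`, for example the discriminant of `g` with respect to `x`, if this is not `0`. -/
def IsDiscriminant {k : Type} [Field k] (g : MvPolynomial (Fin 2) k)
    (Δ : MvPolynomial (Fin 1) k) : Prop :=
  Δ ≠ 0 ∧ ∃ A B : MvPolynomial (Fin 2) k, A * g + B * pderiv 1 g = rename (fun _ => 0) Δ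

/-- Let `g (t, x)` be a polynomial over `k`, monic of degree `2 l ≥ 6` in `x`, with nonzero
discriminant `Δ (t)`. There is a number `c` with the following property. Let `f = ∏ (t - a i)` be a
polynomial of any degree `q > 2 c` with distinct roots `a i`, such that at least five of the roots,
those with `i ∈ G`, are very general with respect to `g` and to the other roots: they are
algebraically independent over a subfield `k₀` that contains the coefficients of `g` and the other
roots (which are arbitrary).

(1) Every curve of genus `g(L)` on the surface `X : z ^ 2 = f (t) * g (t, x)` that is not contained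
in a fibre of `t`, in `z = 0` or in `x = ∞`, satisfies
`(l - 2) deg x + (q / 2 - c) deg t ≤ 2 g(L) - 2`, or `(#G / 2 - 2) deg t ≤ 2 g(L) - 2`.

(2) All rational and elliptic curves on `X` (all nonconstant maps from curves of genus `≤ 1` to `X`)
are contained in the proper closed subset given by `z = 0`, `Δ (t) = 0`, `t = ∞` and `x = ∞`. -/
theorem result (k : Type) [Field k] [IsAlgClosed k] [CharZero k] (l : ℕ) (hl : 3 ≤ l)
    (g : MvPolynomial (Fin 2) k) (hg : MonicIn l g) (Δ : MvPolynomial (Fin 1) k)
    (hΔ : IsDiscriminant g Δ) :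
    ∃ c : ℕ, ∀ (q : ℕ) (a : Fin q → k), Function.Injective a → 2 * c < q →
      ∀ (G : Finset (Fin q)) (k₀ : Subfield k), 5 ≤ G.card → (∀ i, i ∉ G → a i ∈ k₀) →
      (∀ m, g.coeff m ∈ k₀) → AlgebraicIndependent k₀ (fun i : G => a i) →
      ∀ (L : Type) [Field L] [Algebra k L] [IsFF k L] (t x z : L), z ≠ 0 →
      z ^ 2 = (∏ i, (t - algebraMap k L (a i))) * aeval ![t, x] g →
      (Transcendental k t →
        ((l : ℚ) - 2) * degree k x + ((q : ℚ) / 2 - c) * degree k t ≤ canonicalDegree k L ∨
        ((G.card : ℚ) / 2 - 2) * degree k t ≤ canonicalDegree k L) ∧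
      (Transcendental k t ∨ Transcendental k x → aeval (fun _ : Fin 1 => t) Δ ≠ 0 →
        0 < canonicalDegree k L) := by
  classical
  obtain ⟨g₁, rfl, hg₁⟩ := hg
  obtain ⟨hΔ0, A, B, hAB⟩ := hΔ
  obtain ⟨δ, hδ⟩ : ∃ δ, δ = g₁.totalDegree := ⟨_, rfl⟩
  obtain ⟨N, hN⟩ : ∃ N, N = max A.totalDegree B.totalDegree := ⟨_, rfl⟩
  obtain ⟨C, hC⟩ : ∃ C, C = 5 + 2 * δ + N * (1 + δ) + l * δ := ⟨_, rfl⟩
  have h1 : ∀ m ∈ g₁.support, m 1 < 2 * l ∧ m 0 ≤ δ := by
    intro m hm
    refine ⟨hg₁ m hm, ?_⟩
    rw [hδ]
    refine le_trans ?_ (le_totalDegree hm)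
    rw [Finsupp.sum_fintype _ _ (by simp)]
    exact Finset.single_le_sum (f := fun a => m a) (fun _ _ => Nat.zero_le _) (Finset.mem_univ 0)
  refine ⟨1 + C * (1 + Δ.totalDegree),
    fun q a ha hq G k₀ hG ha0 hg0 hab L _ _ _ t x z hz e => ?_⟩
  have hcan : canonicalDegree k L = Pool.Agent.W603.LV.canDeg k L := by
    have h : ∃ D : Derivation k L L, D ≠ 0 := Pool.Agent.W603.LV.exists_der
    unfold canonicalDegree
    rw [dif_pos h, Pool.Agent.W603.LV.canDeg_eq h.choose_spec]
    rfl
  have hdeg : ∀ f : L, degree k f = Pool.Agent.W603.LV.hgt k f := fun f => rfl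
  have hpos : ∀ {f : L}, Transcendental k f → 0 < degree k f := by
    intro f hf
    by_contra hcon
    push Not at hcon
    rw [hdeg] at hcon
    obtain ⟨c, hc⟩ := Pool.Agent.W603.LV.const_of_hgt hcon
    exact hf (by rw [hc]; exact isAlgebraic_algebraMap c)
  have hx0 : (0 : ℤ) ≤ degree k x := by
    rw [hdeg]; exact Pool.Agent.W603.LV.hgt_nonneg x
  have hg0' : ∀ m, g₁.coeff m ∈ k₀ := by
    intro m
    have h2 := hg0 m
    rw [coeff_add, coeff_X_pow] at h2
    have h3 : g₁.coeff m = ((if Finsupp.single 1 (2 * l) = m then (1 : k) else 0) + g₁.coeff m) -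
        (if Finsupp.single 1 (2 * l) = m then (1 : k) else 0) := by ring
    rw [h3]
    refine k₀.sub_mem h2 ?_
    split_ifs
    · exact k₀.one_mem
    · exact k₀.zero_mem
  have hx : (0 : ℚ) ≤ degree k x := by exact_mod_cast hx0
  have key' : Transcendental k t → ((l : ℚ) - 2) * degree k x +
      ((q : ℚ) / 2 - (1 + C * (1 + Δ.totalDegree) : ℕ)) *
      degree k t ≤ canonicalDegree k L ∨ ((G.card : ℚ) / 2 - 2) * degree k t ≤
      canonicalDegree k L := by
    intro ht
    have key := Pool.Agent.TH875.PQ.twist_main k₀ ha G ha0 hab (A := A) (B := B) (N := N) hg0' h1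
      hAB hΔ0 (by rw [hN]; exact le_max_left _ _) (by rw [hN]; exact le_max_right _ _) ht hz e
      (C := C) (by rw [hC]; push_cast; rfl)
    rw [← hdeg, ← hdeg, ← hcan] at key
    rcases key with h2 | h2
    · left
      have h3 : ((2 * (l - 2) * degree k x + (q - 2 - 2 * C * (1 + Δ.totalDegree)) * degree k t :
        ℤ) : ℚ) ≤ (2 * canonicalDegree k L : ℤ) := by exact_mod_cast h2
      push_cast at h3 ⊢
      linarith
    · right
      have h3 : (((G.card - 4) * degree k t : ℤ) : ℚ) ≤ (2 * canonicalDegree k L : ℤ) := by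
        exact_mod_cast h2
      push_cast at h3 ⊢
      linarith
  refine ⟨key', fun htx hΔt => ?_⟩
  have hl' : (3 : ℚ) ≤ l := by exact_mod_cast hl
  by_cases ht : Transcendental k t
  · have h4 : (0 : ℚ) < canonicalDegree k L := by
      have hq' : (2 : ℚ) * (1 + C * (1 + Δ.totalDegree) : ℕ) < q := by exact_mod_cast hq
      have hG' : (5 : ℚ) ≤ G.card := by exact_mod_cast hG
      have hd : (0 : ℚ) < degree k t := by exact_mod_cast hpos ht
      rcases key' ht with h2 | h2
      · have h5 := mul_nonneg (by linarith : (0 : ℚ) ≤ l - 2) hx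
        have h6 := mul_pos (by linarith :
          (0 : ℚ) < (q : ℚ) / 2 - (1 + C * (1 + Δ.totalDegree) : ℕ)) hd
        linarith
      · have h6 := mul_pos (by linarith : (0 : ℚ) < (G.card : ℚ) / 2 - 2) hd
        linarith
    exact_mod_cast h4
  · have hxt := htx.resolve_left ht
    obtain ⟨c, rfl⟩ := Pool.Agent.TH875.PQ.exists_const_of_alg ht
    have hΔc : aeval (fun _ : Fin 1 => c) Δ ≠ 0 := by
      intro h
      apply hΔt
      have h2 := MvPolynomial.aeval_algebraMap_apply (B := L) (fun _ : Fin 1 => c) Δ
      rw [h, map_zero] at h2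
      exact h2
    have h2 := Pool.Agent.TH875.PQ.const_fibre h1 hAB hΔc hxt hz e
    rw [← hdeg, ← hcan] at h2
    have hd := hpos hxt
    have h3 : (0 : ℤ) < (2 * l - 4) * degree k x := mul_pos (by omega) hd
    linarith

end Pool.Agent.Results.MP_8d161d_ag.TwistedFibrations
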