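import Mathlib
import Pool.Agent.TH182.VI.Main

/-!
# Entire curves in very general intersections on an arbitrary projective variety

Let `X ⊂ ℙ^N` be a projective algebraic set of dimension at most `m` and let `D_1, …, D_q` be very
general hypersurface sections of `X` of degrees `d_1, …, d_q` with `d_1 + … + d_q + q ≥ 2 m + 1`.
Every holomorphic map from a one-dimensional complex torus to `Y = D_1 ∩ … ∩ D_q` is constant, and
so is every entire curve in `Y` with homogeneous coordinates in the ring generated by the
meromorphic functions satisfying linear differential equations over a differential ring of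
meromorphic functions of transcendence degree at most one (polynomials, polynomials in
`exp (a z)`, elliptic functions) and by the entire functions with Hadamard gaps.
-/

set_option autoImplicit false

namespace Pool.Agent.Results.MP_8d161d_ag.VeryGeneralIntersections

open Filter MvPolynomial
open scoped LinearAlgebra.Projectivization
open Pool.Agent.TH143.EL Pool.Agent.TH182.VI

/-- Let `X` be a closed subset of the projective space of dimension at most `m`, given by forms
`G i` (the ring of homogeneous coordinates has transcendence degree at most `m + 1`).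

1. There is a countable subfield `k₁` of `ℂ`, depending only on `X`, such that for all forms
`F i`, `i < q`, of degrees `d i` with `∑ d i + q ≥ 2 m + 1`, whose coefficients together are
algebraically independent over `k₁`, the set `Y` of the points of `X` on all `F i = 0` has the
following two properties: all holomorphic maps from one-dimensional complex tori to `Y` are
constant; all entire curves in `Y` with homogeneous coordinates in the ring generated by the
meromorphic functions satisfying linear differential equations over a differential ring of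
meromorphic functions of transcendence degree at most one and by the entire functions with Hadamard
gaps at one point are constant.

2. For given degrees, this holds for all `F` for which a countable set of nonzero polynomials in the
coefficients do not vanish.

3. Examples of rings of coefficients. -/
theorem result {N m : ℕ} {κ : Type} (G : κ → MvPolynomial (Fin (N + 1)) ℂ)
    (hG : ∀ i, ∃ n, (G i).IsHomogeneous n)
    (hdim : Algebra.trdeg ℂ (MvPolynomial (Fin (N + 1)) ℂ ⧸ Ideal.span (Set.range G)) ≤ m + 1) :
    (∃ k₁ : Subfield ℂ, Countable k₁ ∧ ∀ (q : ℕ) (d : Fin q → ℕ)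
      (F : Fin q → MvPolynomial (Fin (N + 1)) ℂ), 2 * m + 1 ≤ ∑ i, d i + q →
      (∀ i, (F i).IsHomogeneous (d i)) → AlgebraicIndependent k₁ (coeffs d F) →
      NoTorus (Sum.elim G F) ∧ MixedHyperbolic (Sum.elim G F)) ∧
    (∀ (q : ℕ) (d : Fin q → ℕ), 2 * m + 1 ≤ ∑ i, d i + q →
      ∃ Ps : Set (MvPolynomial (CI N d) ℂ), Ps.Countable ∧ 0 ∉ Ps ∧
        ∀ F : Fin q → MvPolynomial (Fin (N + 1)) ℂ, (∀ i, (F i).IsHomogeneous (d i)) →
          (∀ P ∈ Ps, eval (coeffs d F) P ≠ 0) →
          NoTorus (Sum.elim G F) ∧ MixedHyperbolic (Sum.elim G F)) ∧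
    (TrOne (Algebra.adjoin ℂ {fun z : ℂ => z}) ∧
      (∀ a : ℂ, TrOne (Algebra.adjoin ℂ {fun z : ℂ => Complex.exp (a * z)})) ∧
      ∀ ω₁ ω₂ : ℂ, LinearIndependent ℝ ![ω₁, ω₂] → TrOne (Ell ω₁ ω₂)) := by
  obtain ⟨k₁, hk₁, hmain⟩ := torus_const G hG hdim
  have key : ∀ (q : ℕ) (d : Fin q → ℕ)
      (F : Fin q → MvPolynomial (Fin (N + 1)) ℂ), 2 * m + 1 ≤ ∑ i, d i + q →
      (∀ i, (F i).IsHomogeneous (d i)) → AlgebraicIndependent k₁ (coeffs d F) →
      NoTorus (Sum.elim G F) ∧ MixedHyperbolic (Sum.elim G F) := by
    intro q d F hd hF hind
    have h1 : TorusConst (Sum.elim G F) := hmain q d F hF hind hd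
    refine ⟨noTorus_of h1, mixedHyperbolic_of ?_ h1⟩
    rintro (i | i)
    · exact hG i
    · exact ⟨d i, hF i⟩
  refine ⟨⟨k₁, hk₁, key⟩, fun q d hd => ?_, trOne_poly, trOne_exp, fun ω₁ ω₂ h => trOne_ell h⟩
  obtain ⟨Ps, h1, h2, h3⟩ := very_general (N := N) k₁ d
  exact ⟨Ps, h1, h2, fun F hF hP => key q d F hd hF (h3 F hP)⟩

end Pool.Agent.Results.MP_8d161d_ag.VeryGeneralIntersections
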